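import Pool.Agent.X171.LS.Metric

/-!
# MP_6460d9_an: the strong diameter two property of vector-valued Lipschitz spaces
-/

namespace Pool.Agent.Results.MP_6460d9_an.VectorValuedSD2P

open Pool.Agent.X171.LS

universe u v

/-- **Q1, answered positively.** Let `M` be a metric space with base point `o` and `Y` a real
normed space (for instance the dual of a Banach space) such that the pair `(M, Y)` has the
contraction-extension property, and let `M` be unbounded or not uniformly discrete. Then the space
`Lip(M, Y)` has the strong diameter two property. -/
theorem result {M : Type u} [MetricSpace M] (o : M) {Y : Type v} [NormedAddCommGroup Y]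
    [NormedSpace ℝ Y] (hcpe : CPE M Y)
    (hM : ¬ Bornology.IsBounded (Set.univ : Set M) ∨
      ¬ ∃ r > 0, ∀ x y : M, x ≠ y → r ≤ dist x y) :
    SD2P (Lip o Y) := by
  refine sd2p_of_cond hcpe fun δ hδ0 hδ1 => ?_
  rcases hM with h | h
  · exact cond_unbounded hδ0 hδ1 h
  · exact cond_not_discrete hδ0 hδ1 h

end Pool.Agent.Results.MP_6460d9_an.VectorValuedSD2P
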